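import Pool.Agent.Y206.Q.Fin
import Pool.Agent.Y397.QG.One

/-!
# Unexpected cones of geproci sets: the socle argument
-/

set_option autoImplicit false
open MvPolynomial
open Pool.Agent.Helper947.Geo
open Pool.Agent.Y206.G
open Pool.Agent.Y206.Q
open scoped LinearAlgebra.Projectivization

namespace Pool.Agent.V1149.GC

/-- the columns of the matrix of the projection from `P` -/
def cols (P : Fin 4 → ℂ) : Fin 4 → Fin 3 → ℂ := fun j => projv P (Pi.single j 1)

theorem sum_cols (P x : Fin 4 → ℂ) : ∑ j, x j • cols P j = projv P x := by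
  funext i
  simp only [cols, projv, Finset.sum_apply, Pi.smul_apply, smul_eq_mul, mul_sub,
    Finset.sum_sub_distrib]
  congr 1
  · rw [Finset.sum_eq_single i.castSucc]
    · simp; ring
    · intro j _ hj
      rw [Pi.single_eq_of_ne (Ne.symm hj)]; simp
    · intro h; exact absurd (Finset.mem_univ _) h
  · rw [Finset.sum_eq_single (Fin.last 3)]
    · simp
    · intro j _ hj
      rw [Pi.single_eq_of_ne (Ne.symm hj)]; simp
    · intro h; exact absurd (Finset.mem_univ _) h

/-- the cone with vertex `P` over a plane curve -/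
noncomputable def cone (P : Fin 4 → ℂ) : MvPolynomial (Fin 3) ℂ →ₐ[ℂ] MvPolynomial (Fin 4) ℂ :=
  sub (cols P)

theorem eval_cone (P x : Fin 4 → ℂ) (g : MvPolynomial (Fin 3) ℂ) :
    eval x (cone P g) = eval (projv P x) g := by
  rw [cone, eval_sub, sum_cols]

theorem cone_hom (P : Fin 4 → ℂ) {g : MvPolynomial (Fin 3) ℂ} {d : ℕ} (hg : g.IsHomogeneous d) :
    (cone P g).IsHomogeneous d := sub_hom _ g d hg

theorem projv_surj {P : Fin 4 → ℂ} (hP : P (Fin.last 3) ≠ 0) (y : Fin 3 → ℂ) :
    ∃ x, projv P x = y := by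
  refine ⟨Fin.snoc (α := fun _ => ℂ) (fun i => y i / P (Fin.last 3)) 0, ?_⟩
  funext i
  simp only [projv, Fin.snoc_castSucc, Fin.snoc_last]
  field_simp
  ring

theorem cone_inj {P : Fin 4 → ℂ} (hP : P (Fin.last 3) ≠ 0) : Function.Injective (cone P) := by
  rw [injective_iff_map_eq_zero]
  intro g hg
  apply MvPolynomial.funext
  intro y
  obtain ⟨x, rfl⟩ := projv_surj hP y
  rw [← eval_cone, hg, map_zero, map_zero]

theorem projv_self (P : Fin 4 → ℂ) : projv P P = 0 := by
  funext i
  simp only [projv, Pi.zero_apply]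
  ring

/-- a linear form vanishing on a spanning set is zero -/
theorem lin_span {K : Type} (z : K → Fin 4 → ℂ) (hsp : Submodule.span ℂ (Set.range z) = ⊤)
    {f : MvPolynomial (Fin 4) ℂ} (hf : f.IsHomogeneous 1) (h : ∀ k, eval (z k) f = 0)
    (x : Fin 4 → ℂ) : eval x f = 0 := by
  obtain ⟨L, hL⟩ := zz_eval_lin f hf
  have hL0 : L = 0 := by
    apply LinearMap.ext_on_range (v := z) hsp
    intro i
    rw [hL, h i, LinearMap.zero_apply]
  rw [← hL x, hL0, LinearMap.zero_apply]

/-- **Key step.**  In degrees `1 ≤ d ≤ a + b - 3` some form of degree `d` does not agree on the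
points with a cone of degree `d`. -/
theorem key {K : Type} [Fintype K] [Nonempty K] (z : K → Fin 4 → ℂ)
    (hsp : Submodule.span ℂ (Set.range z) = ⊤) {a b d : ℕ} {P : Fin 4 → ℂ}
    (hP : P (Fin.last 3) ≠ 0) {F G : MvPolynomial (Fin 3) ℂ} (hF : F.IsHomogeneous a)
    (hG : G.IsHomogeneous b) (hI : IsVan (fun k => projv P (z k)) (Ideal.span {F, G}))
    (hw : ∀ k, projv P (z k) ≠ 0)
    (hw2 : ∀ k l, k ≠ l → LinearIndependent ℂ ![projv P (z k), projv P (z l)])
    (hd : 1 ≤ d) (hd' : d + 3 ≤ a + b) :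
    ∃ f : MvPolynomial (Fin 4) ℂ, f.IsHomogeneous d ∧ ∀ g : MvPolynomial (Fin 3) ℂ,
      g.IsHomogeneous d → ¬ ∀ k, eval (z k) f = eval (projv P (z k)) g := by
  classical
  by_contra hcon
  push Not at hcon
  obtain ⟨ha1, hb1, -, -, -, h, hh, hne, hsoc⟩ := gor_pair hF hG hI hw
  have hgor : GorSet (fun k => projv P (z k)) ((a - 1) + (b - 1)) (Ideal.span {F, G}) h :=
    ⟨hI, hh, hne, hsoc, hw2, hw⟩
  let Q : ℕ → Prop := fun j => ∀ r : MvPolynomial (Fin 3) ℂ, r.IsHomogeneous j →
    ∃ g : MvPolynomial (Fin 3) ℂ, g.IsHomogeneous (j + 1) ∧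
      ∀ k, z k (Fin.last 3) * eval (projv P (z k)) r = eval (projv P (z k)) g
  have hQd : Q (d - 1) := by
    intro r hr
    have h1 : (X (Fin.last 3) * cone P r).IsHomogeneous d := by
      have := (isHomogeneous_X ℂ (Fin.last 3)).mul (cone_hom P hr)
      rwa [show 1 + (d - 1) = d by omega] at this
    obtain ⟨g, hg, hgk⟩ := hcon _ h1
    refine ⟨g, by rwa [show d - 1 + 1 = d by omega], fun k => ?_⟩
    rw [← hgk k, map_mul, eval_X, eval_cone]
  have hex : ∃ j, Q j := ⟨d - 1, hQd⟩
  have hmin := Nat.find_spec hex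
  have hle : Nat.find hex ≤ d - 1 := Nat.find_min' hex hQd
  rcases Nat.eq_zero_or_pos (Nat.find hex) with h0 | hpos
  · rw [h0] at hmin
    obtain ⟨g, hg, hgk⟩ := hmin 1 (isHomogeneous_one _ _)
    rw [zero_add] at hg
    have h1 : (X (Fin.last 3) - cone P g).IsHomogeneous 1 :=
      (isHomogeneous_X ℂ (Fin.last 3)).sub (cone_hom P hg)
    have h2 := lin_span z hsp h1 (fun k => by
      rw [map_sub, eval_X, eval_cone, ← hgk k, map_one, mul_one, sub_self]) P
    rw [map_sub, eval_X, eval_cone, projv_self] at h2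
    have h3 : eval (0 : Fin 3 → ℂ) g = 0 := by
      obtain ⟨L, hL⟩ := zz_eval_lin g hg
      rw [← hL, map_zero]
    rw [h3, sub_zero] at h2
    exact hP h2
  · obtain ⟨j, hj⟩ := Nat.exists_eq_succ_of_ne_zero hpos.ne'
    have hnot : ¬ Q j := Nat.find_min hex (by omega)
    rw [hj] at hmin hle
    simp only [Q] at hnot
    push Not at hnot
    obtain ⟨r, hr, hrn⟩ := hnot
    have hhr : (h * r).IsHomogeneous (j + 1) := by
      have := hh.mul hr
      rwa [add_comm 1 j] at this
    obtain ⟨u, hu, huk⟩ := hmin (h * r) hhr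
    have hX : ∀ i, X i * u ∈ Ideal.span {F, G} ⊔ Ideal.span {h} := by
      intro i
      have hXr : (X i * r).IsHomogeneous (j + 1) := by
        have := (isHomogeneous_X ℂ i).mul hr
        rwa [add_comm 1 j] at this
      obtain ⟨v, hv, hvk⟩ := hmin (X i * r) hXr
      have hXu : (X i * u).IsHomogeneous (j + 1 + 1 + 1) := by
        have := (isHomogeneous_X ℂ i).mul hu
        rwa [add_comm 1 (j + 1 + 1)] at this
      rw [J_iff hI hh hXu]
      refine ⟨v, hv, fun k => ?_⟩
      have e1 := huk k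
      have e2 := hvk k
      simp only [map_mul, eval_X] at e1 e2 ⊢
      rw [← e1, ← e2]
      ring
    have hmem := hgor.soc (j := j + 1 + 1) (by omega) hu hX
    rw [J_iff hI hh hu] at hmem
    obtain ⟨g, hg, hgk⟩ := hmem
    obtain ⟨k, hk⟩ := hrn g hg
    apply hk
    have e1 := huk k
    have e2 := hgk k
    rw [← e1, map_mul] at e2
    have e3 : eval (projv P (z k)) h * (z k (Fin.last 3) * eval (projv P (z k)) r) =
        eval (projv P (z k)) h * eval (projv P (z k)) g := by
      rw [← e2]; ring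
    exact mul_left_cancel₀ (hne k) e3

end Pool.Agent.V1149.GC
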