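import Pool.Agent.V1149.GC.Key
import Pool.Agent.Y625.QG.Two

/-!
# Geproci sets of type `(2, b)` are grids
-/

set_option autoImplicit false
open MvPolynomial
open Pool.Agent.Helper947.Geo
open Pool.Agent.Y206.G
open Pool.Agent.Y206.Q
open scoped LinearAlgebra.Projectivization

namespace Pool.Agent.V1149.GC

theorem gep_card' {K : Type} [Fintype K] [DecidableEq K] (z : K → Fin 4 → ℂ)
    (h2 : ∀ i j, i ≠ j → LinearIndependent ℂ ![z i, z j]) (hz : ∀ k, z k ≠ 0) {a b : ℕ}
    (hG : Gep z a b) : Fintype.card K = a * b := by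
  obtain ⟨φ₁, hφ₁, h1⟩ := hG
  obtain ⟨φ₃, hφ₃, h3⟩ := projv_pair z h2 hz
  obtain ⟨P, hP⟩ := g4_exists_ne _ (mul_ne_zero hφ₁ hφ₃)
  rw [map_mul] at hP
  obtain ⟨F, G, hF, hG, hI⟩ := h1 P (left_ne_zero_of_mul hP)
  obtain ⟨-, hpair, hnz⟩ := h3 P (right_ne_zero_of_mul hP)
  exact h_card K _ a b F G hpair hnz hF hG hI

/-- a vector not in the span of an independent pair -/
theorem triple_of_notMem {x y w : Fin 4 → ℂ} (h : LinearIndependent ℂ ![x, y])
    (hw : w ∉ Submodule.span ℂ {x, y}) : LinearIndependent ℂ ![x, y, w] := by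
  have h9 : LinearIndependent ℂ (Fin.cons w ![x, y] : Fin 3 → Fin 4 → ℂ) := by
    refine linearIndependent_finCons.2 ⟨h, ?_⟩
    simpa [Matrix.range_cons, Matrix.range_empty, Set.pair_comm] using hw
  have h10 := h9.comp (fun i : Fin 3 => i + 1) (by decide)
  convert h10 using 1
  funext i
  fin_cases i <;> rfl

/-- projections of independent triples from a general point are independent -/
theorem projv_triple {x : Fin 3 → Fin 4 → ℂ} (hli : LinearIndependent ℂ x) :
    ∃ ζ : Fin 4 → ℂ, ζ ≠ 0 ∧ ∀ P : Fin 4 → ℂ, P (Fin.last 3) ≠ 0 → ζ ⬝ᵥ P ≠ 0 →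
      LinearIndependent ℂ (fun a => projv P (x a)) := by
  obtain ⟨ζ, hζ0, hζ⟩ := off_line_ker (le_refl 4) x
  refine ⟨ζ, hζ0, fun P hPl hPz => ?_⟩
  rw [Fintype.linearIndependent_iff]
  intro c hc a
  have h1 : projv P (∑ a, c a • x a) = 0 := by
    have h2 := map_sum (pi_L P) (fun a => c a • x a) Finset.univ
    simp only [map_smul] at h2
    exact h2.trans hc
  obtain ⟨d, hd⟩ := projv_ker P _ hPl h1
  have hd0 : d = 0 := by
    have h3 := congrArg (fun v => v ⬝ᵥ ζ) hd
    simp only [sum_dotProduct, smul_dotProduct, hζ, smul_eq_mul, mul_zero,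
      Finset.sum_const_zero] at h3
    rcases mul_eq_zero.1 h3.symm with h | h
    · exact h
    · exact absurd (by rw [dotProduct_comm]; exact h) hPz
  rw [hd0, zero_smul] at hd
  exact Fintype.linearIndependent_iff.1 hli c hd a

theorem projv_triples {K : Type} [Fintype K] (z : K → Fin 4 → ℂ) :
    ∃ φ : MvPolynomial (Fin 4) ℂ, φ ≠ 0 ∧ ∀ P : Fin 4 → ℂ, eval P φ ≠ 0 →
      ∀ i j k, LinearIndependent ℂ ![z i, z j, z k] →
        LinearIndependent ℂ ![projv P (z i), projv P (z j), projv P (z k)] := by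
  classical
  have h : ∀ t : K × K × K, ∃ ζ : Fin 4 → ℂ, ζ ≠ 0 ∧
      (LinearIndependent ℂ ![z t.1, z t.2.1, z t.2.2] → ∀ P : Fin 4 → ℂ, P (Fin.last 3) ≠ 0 →
        ζ ⬝ᵥ P ≠ 0 → LinearIndependent ℂ (fun a => projv P (![z t.1, z t.2.1, z t.2.2] a))) := by
    intro t
    by_cases hli : LinearIndependent ℂ ![z t.1, z t.2.1, z t.2.2]
    · obtain ⟨ζ, h1, h2⟩ := projv_triple hli
      exact ⟨ζ, h1, fun _ => h2⟩
    · exact ⟨fun _ => 1, fun h0 => one_ne_zero (congrFun h0 0), fun h0 => absurd h0 hli⟩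
  choose ζ hζ0 hζ using h
  refine ⟨X (Fin.last 3) * ∏ t, lf (ζ t), mul_ne_zero (X_ne_zero _) ?_, ?_⟩
  · rw [Finset.prod_ne_zero_iff]
    exact fun t _ => pi_lf_ne (hζ0 t)
  · intro P hP i j k hli
    rw [map_mul, eval_X, map_prod] at hP
    have h1 := Finset.prod_ne_zero_iff.1 (right_ne_zero_of_mul hP) (i, j, k) (Finset.mem_univ _)
    rw [eval_lf] at h1
    have h2 := hζ (i, j, k) hli P (left_ne_zero_of_mul hP) h1
    convert h2 using 1
    funext a
    fin_cases a <;> rfl

/-- a nonzero linear form vanishing at two independent vectors -/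
theorem exists_form (x y : Fin 3 → ℂ) : ∃ η : Fin 3 → ℂ, η ≠ 0 ∧ η ⬝ᵥ x = 0 ∧ η ⬝ᵥ y = 0 := by
  let f : (Fin 3 → ℂ) →ₗ[ℂ] (Fin 2 → ℂ) :=
    { toFun := fun η => ![η ⬝ᵥ x, η ⬝ᵥ y]
      map_add' := fun a b => by funext i; fin_cases i <;> simp [add_dotProduct]
      map_smul' := fun c a => by funext i; fin_cases i <;> simp [smul_dotProduct] }
  have h1 : LinearMap.ker f ≠ ⊥ := by
    apply LinearMap.ker_ne_bot_of_finrank_lt
    simp
  obtain ⟨η, hη, hη0⟩ := (Submodule.ne_bot_iff _).1 h1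
  have h2 : f η = 0 := hη
  exact ⟨η, hη0, congrFun h2 0, congrFun h2 1⟩

/-- a vector in the kernel of a form vanishing at three independent vectors -/
theorem form_zero {v : Fin 3 → Fin 3 → ℂ} (hv : LinearIndependent ℂ v) {η : Fin 3 → ℂ}
    (h : ∀ i, η ⬝ᵥ v i = 0) : η = 0 := by
  have hs : Submodule.span ℂ (Set.range v) = ⊤ :=
    LinearIndependent.span_eq_top_of_card_eq_finrank' hv (by simp)
  exact span_dual v hs η h

theorem two_case (Z : Finset (ℙ ℂ (Fin 4 → ℂ)))
    (hpair : ∀ k l : Z, k ≠ l → LinearIndependent ℂ ![k.1.rep, l.1.rep])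
    (hsp : Submodule.span ℂ (Set.range fun z : Z => z.1.rep) = ⊤) (b : ℕ) (hb : 3 ≤ b)
    (hG : Gep (fun z : Z => z.1.rep) 2 b) : Grid Z := by
  classical
  set z : Z → Fin 4 → ℂ := fun z => z.1.rep with hz
  have hz0 : ∀ k, z k ≠ 0 := fun k => k.1.rep_nonzero
  have hcard := gep_card' z hpair hz0 hG
  have hne : Nonempty Z := by
    rw [← Fintype.card_pos_iff, hcard]
    omega
  obtain ⟨k₀⟩ := hne
  obtain ⟨ξ, W, -, -, -, -, i, -, j, -, k, -, hij, hik, hjk, hdep⟩ :=
    gep_special z hsp hpair hz0 2 b hG (by omega) k₀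
  set L : Submodule ℂ (Fin 4 → ℂ) := Submodule.span ℂ {z i, z j} with hL
  have hkL : z k ∈ L := by
    by_contra h
    exact hdep (triple_of_notMem (hpair i j hij) h)
  have hiL : z i ∈ L := Submodule.subset_span (by simp)
  have hjL : z j ∈ L := Submodule.subset_span (by simp)
  have hLrank : Module.finrank ℂ L = 2 := by
    have h1 := finrank_span_eq_card (hpair i j hij)
    rw [Matrix.range_cons, Matrix.range_cons, Matrix.range_empty, Set.union_empty,
      Set.singleton_union, Fintype.card_fin] at h1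
    exact h1
  -- for a general point, the line is peeled off
  obtain ⟨φ, hφ, hφP⟩ := hG
  obtain ⟨φ₁, hφ₁, h1P⟩ := projv_pair z hpair hz0
  obtain ⟨φ₂, hφ₂, h2P⟩ := projv_triples z
  have hgen : ∀ P, eval P (φ * φ₁ * φ₂) ≠ 0 →
      Nat.card {l // z l ∈ L} = b ∧ ∃ F G : MvPolynomial (Fin 3) ℂ, F.IsHomogeneous 1 ∧
        G.IsHomogeneous b ∧ IsVan (fun l : {l // z l ∉ L} => projv P (z l.1))
          (Ideal.span {F, G}) := by
    intro P hP
    rw [map_mul, map_mul] at hP
    obtain ⟨F, G, hF, hG, hI⟩ := hφP P (left_ne_zero_of_mul (left_ne_zero_of_mul hP))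
    obtain ⟨hPl, hw2, hw0⟩ := h1P P (right_ne_zero_of_mul (left_ne_zero_of_mul hP))
    have htr := h2P P (right_ne_zero_of_mul hP)
    obtain ⟨η, hη0, hηi, hηj⟩ := exists_form (projv P (z i)) (projv P (z j))
    have hiff : ∀ l, η ⬝ᵥ projv P (z l) = 0 ↔ z l ∈ L := by
      intro l
      constructor
      · intro h
        by_contra hl
        apply hη0
        have h3 := htr i j l (triple_of_notMem (hpair i j hij) hl)
        apply form_zero h3
        intro a
        fin_cases a
        · exact hηi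
        · exact hηj
        · exact h
      · intro h
        obtain ⟨c, d, hcd⟩ := Submodule.mem_span_pair.1 h
        have h4 : projv P (z l) = c • projv P (z i) + d • projv P (z j) := by
          rw [← hcd]
          exact (map_add (pi_L P) _ _).trans (by rw [map_smul, map_smul]; rfl)
        rw [h4, dotProduct_add, dotProduct_smul, dotProduct_smul, hηi, hηj]
        simp
    have hcnt : Nat.card {l // η ⬝ᵥ projv P (z l) = 0} = Nat.card {l // z l ∈ L} :=
      Nat.card_congr (Equiv.subtypeEquivRight hiff)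
    have h3 : 3 ≤ Nat.card {l // z l ∈ L} := by
      have h5 : ({i, j, k} : Finset Z).card = 3 := by
        rw [Finset.card_insert_of_notMem (by simp [hij, hik]), Finset.card_pair hjk]
      rw [Nat.card_eq_fintype_card, Fintype.card_subtype, ← h5]
      apply Finset.card_le_card
      intro x hx
      simp only [Finset.mem_insert, Finset.mem_singleton] at hx
      rw [Finset.mem_filter]
      refine ⟨Finset.mem_univ _, ?_⟩
      rcases hx with rfl | rfl | rfl <;> assumption
    rcases h_full Z (fun l => projv P (z l)) 2 b F G hw2 hw0 hF hG hI (by omega) (by omega)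
      η hη0 (by rw [hcnt]; omega) with ⟨hc, F', hF', hI'⟩ | ⟨hc, -⟩
    · refine ⟨by rw [← hcnt]; exact hc, F', G, hF', hG, ?_⟩
      intro f
      rw [hI' f]
      constructor
      · intro h l t
        exact h ⟨l.1, fun h0 => l.2 ((hiff l.1).1 h0)⟩ t
      · intro h l t
        exact h ⟨l.1, fun h0 => l.2 ((hiff l.1).2 h0)⟩ t
    · rw [hcnt] at hc
      omega
  have hφφ : φ * φ₁ * φ₂ ≠ 0 := mul_ne_zero (mul_ne_zero hφ hφ₁) hφ₂
  have hLcard : Nat.card {l // z l ∈ L} = b := by
    obtain ⟨P, hP⟩ := g4_exists_ne _ hφφ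
    exact (hgen P hP).1
  have hG1 : Gep (fun l : {l // z l ∉ L} => z l.1) 1 b :=
    ⟨_, hφφ, fun P hP => (hgen P hP).2⟩
  have hdep' := Pool.Agent.Y397.QG.dep (fun l : {l // z l ∉ L} => z l.1) hG1
  have hcompl : Fintype.card {l // z l ∉ L} = b := by
    have h5 : Fintype.card {l // z l ∈ L} = b := by rw [← Nat.card_eq_fintype_card]; exact hLcard
    have h6 := Fintype.card_subtype_compl (fun l => z l ∈ L)
    rw [h6, h5, hcard]
    omega
  obtain ⟨p, q, hpq⟩ : ∃ p q : {l // z l ∉ L}, p ≠ q := by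
    have : 1 < Fintype.card {l // z l ∉ L} := by omega
    exact Fintype.one_lt_card_iff.1 this
  set M : Submodule ℂ (Fin 4 → ℂ) := Submodule.span ℂ {z p.1, z q.1} with hM
  have hpq' : p.1 ≠ q.1 := fun h => hpq (Subtype.ext h)
  have hMrank : Module.finrank ℂ M = 2 := by
    have h1 := finrank_span_eq_card (hpair p.1 q.1 hpq')
    rw [Matrix.range_cons, Matrix.range_cons, Matrix.range_empty, Set.union_empty,
      Set.singleton_union, Fintype.card_fin] at h1
    exact h1
  have hMmem : ∀ l, z l ∉ L → z l ∈ M := by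
    intro l hl
    by_contra h
    exact hdep' p q ⟨l, hl⟩ (triple_of_notMem (hpair p.1 q.1 hpq') h)
  have hsup : L ⊔ M = ⊤ := by
    rw [eq_top_iff, ← hsp, Submodule.span_le]
    rintro _ ⟨l, rfl⟩
    by_cases hl : z l ∈ L
    · exact Submodule.mem_sup_left hl
    · exact Submodule.mem_sup_right (hMmem l hl)
  have hinf : L ⊓ M = ⊥ := by
    have h1 := Submodule.finrank_sup_add_finrank_inf_eq L M
    rw [hsup, finrank_top, Module.finrank_fin_fun, hLrank, hMrank] at h1
    apply Submodule.finrank_eq_zero.1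
    omega
  have hMiff : ∀ l, z l ∈ M ↔ z l ∉ L := by
    intro l
    refine ⟨fun h1 h2 => ?_, hMmem l⟩
    have h3 : z l ∈ L ⊓ M := ⟨h2, h1⟩
    rw [hinf] at h3
    exact hz0 l ((Submodule.mem_bot ℂ).1 h3)
  have hcnt : ∀ N : Submodule ℂ (Fin 4 → ℂ),
      Nat.card {x // x ∈ Z ∧ x.submodule ≤ N} = Nat.card {l // z l ∈ N} := by
    intro N
    exact (Nat.card_congr ((Equiv.subtypeEquivRight fun x : Z => (sub_le_iff x.1 N).symm).trans
        (Equiv.subtypeSubtypeEquivSubtypeInter (fun x => x ∈ Z)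
          (fun x => x.submodule ≤ N)))).symm
  refine Pool.Agent.Y625.QG.two Z b ![L, M] ?_ hinf ?_ ?_ ?_
  · intro i
    fin_cases i
    · exact hLrank
    · exact hMrank
  · intro x hx
    by_cases h1 : z ⟨x, hx⟩ ∈ L
    · exact Or.inl ((sub_le_iff x L).2 h1)
    · exact Or.inr ((sub_le_iff x M).2 (hMmem _ h1))
  · exact (hcnt L).trans hLcard
  · refine (hcnt M).trans ?_
    rw [← hcompl, ← Nat.card_eq_fintype_card]
    exact Nat.card_congr (Equiv.subtypeEquivRight hMiff)

/-- the type of a nondegenerate geproci set that is not a grid -/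
theorem three_le (Z : Finset (ℙ ℂ (Fin 4 → ℂ)))
    (hpair : ∀ k l : Z, k ≠ l → LinearIndependent ℂ ![k.1.rep, l.1.rep])
    (hsp : Submodule.span ℂ (Set.range fun z : Z => z.1.rep) = ⊤) (a b : ℕ) (hab : a ≤ b)
    (hG : Gep (fun z : Z => z.1.rep) a b) (hgrid : ¬ Grid Z) : 3 ≤ a := by
  classical
  have hcard := gep_card' _ hpair (fun k => k.1.rep_nonzero) hG
  by_contra hcon
  have hK : 4 ≤ Fintype.card Z := by
    have h1 := finrank_range_le_card (R := ℂ) (fun z : Z => z.1.rep)
    rw [Set.finrank, hsp, finrank_top, Module.finrank_fin_fun] at h1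
    exact h1
  rcases (show a = 0 ∨ a = 1 ∨ a = 2 by omega) with rfl | rfl | rfl
  · rw [hcard] at hK; omega
  · -- all triples are dependent, so the points do not span
    have hdep := Pool.Agent.Y397.QG.dep _ hG
    have h2 : 1 < Fintype.card Z := by omega
    obtain ⟨p, q, hpq⟩ := Fintype.one_lt_card_iff.1 h2
    have hM : Submodule.span ℂ {p.1.rep, q.1.rep} = ⊤ := by
      rw [eq_top_iff, ← hsp, Submodule.span_le]
      rintro _ ⟨l, rfl⟩
      by_contra h
      exact hdep p q l (triple_of_notMem (hpair p q hpq) h)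
    have h3 := finrank_span_eq_card (hpair p q hpq)
    rw [Matrix.range_cons, Matrix.range_cons, Matrix.range_empty, Set.union_empty,
      Set.singleton_union, Fintype.card_fin, hM, finrank_top, Module.finrank_fin_fun] at h3
    omega
  · rcases (show b = 2 ∨ 3 ≤ b by omega) with rfl | hb
    · refine hgrid (four_case Z ?_ hsp)
      rw [← Fintype.card_coe, hcard]
    · exact hgrid (two_case Z hpair hsp b hb hG)

end Pool.Agent.V1149.GC
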